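import Mathlib
import Pool.Agent.H630R2.LA.Defs

set_option autoImplicit false

namespace Pool.Agent.L0h67.CQ

open Pool.Agent.H630R2.LA

/-- A nondeterministic one-way machine whose memory is a queue of fixed length (equivalently, a
circular tape the head of which moves one cell further in each step). `S` is the set of control
states, `Y` the set of the symbols in the queue; at the beginning the control is in `s0` and all
symbols in the queue are `y0`. In each step the machine removes the first symbol `x` of the queue,
reads a letter `a` of the input, enters a state `t` and appends a symbol `z`, where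
`tr s x a t z` must hold if `s` was the old state. -/
structure QM (A : Type) where
  S : Type
  Y : Type
  finS : Finite S
  finY : Finite Y
  s0 : S
  y0 : Y
  acc : Set S
  tr : S → Y → A → S → Y → Prop

variable {A : Type}

/-- The symbol removed from the queue of length `k` in step `i`, if `y j` is the symbol appended
in step `j`. -/
def QM.front (T : QM A) (k : ℕ) (y : ℕ → T.Y) (i : ℕ) : T.Y := if i < k then T.y0 else y (i - k)

/-- `s` and `y` describe `m` steps of the machine with a queue of length `k` on the input `w`. -/
def QM.Run (T : QM A) (k : ℕ) (w : List A) (m : ℕ) (s : ℕ → T.S) (y : ℕ → T.Y) : Prop :=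
  s 0 = T.s0 ∧ ∀ i a, i < m → w[i]? = some a → T.tr (s i) (T.front k y i) a (s (i + 1)) (y i)

/-- The language of the machine with a queue of length `k`. -/
def QM.lang (T : QM A) (k : ℕ) : Set (List A) :=
  {w | ∃ s y, T.Run k w w.length s y ∧ s w.length ∈ T.acc}

/-- The states of the 1-limited automaton. -/
inductive St (S Y : Type) (n : ℕ) : Type
  | L (s : S) (j : ZMod n) : St S Y n
  | W (s : S) : St S Y n
  | R (s : S) (o : Option (Y × Bool)) (c : ZMod n) : St S Y n

/-- The moves of the 1-limited automaton. -/
def del (T : QM A) (n : ℕ) : St T.S T.Y n → Sym (A ⊕ (T.Y × Bool)) →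
    Set (St T.S T.Y n × (A ⊕ (T.Y × Bool)) × Bool)
  | .L s _, .lm => {(.R s none 1, .inr (T.y0, false), true)}
  | .L s j, .sym (.inr (y, false)) => {(.L s j, .inr (y, false), false)}
  | .L s j, .sym (.inr (y, true)) =>
      {r | (j + 1 ≠ 0 ∧ r = (.L s (j + 1), .inr (y, true), false)) ∨
        (j + 1 = 0 ∧ (r = (.W s, .inr (y, true), false) ∨
          r = (.R s (some (y, true)) 1, .inr (y, true), true)))}
  | .W s, .sym (.inr (y, false)) =>
      {r | r = (.W s, .inr (y, false), false) ∨
        r = (.R s (some (y, false)) 1, .inr (y, false), true)}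
  | .R s o c, .sym (.inr u) => {(.R s o (c + 1), .inr u, true)}
  | .R s (some (y, b)) c, .sym (.inl a) =>
      {r | c = 0 ∧ ∃ s' y', T.tr s y a s' y' ∧
        r = (.L s' (if b then 1 else 0), .inr (y', b), false)}
  | .R s none c, .sym (.inl a) =>
      {r | ∃ s' y', T.tr s T.y0 a s' y' ∧
        r = (.L s' (if c = 0 then 1 else 0), .inr (y', decide (c = 0)), false)}
  | .R s o c, .rm => {(.R s o (c + 1), .inr (T.y0, false), true)}
  | _, _ => ∅

/-- The states of the automaton form a finite set. -/
def St.code {S Y : Type} {n : ℕ} : St S Y n →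
    (S × ZMod n) ⊕ S ⊕ (S × Option (Y × Bool) × ZMod n)
  | .L s j => .inl (s, j)
  | .W s => .inr (.inl s)
  | .R s o c => .inr (.inr (s, o, c))

theorem St.code_inj {S Y : Type} {n : ℕ} : Function.Injective (St.code (S := S) (Y := Y) (n := n)) := by
  intro a b h
  cases a <;> cases b <;> simp_all [St.code]

/-- The 1-limited automaton which simulates the machine `T` with a queue of length `n ^ 2`. -/
def mach (T : QM A) (n : ℕ) [NeZero n] [Finite A] : LimAut A where
  Q := St T.S T.Y n
  W := A ⊕ (T.Y × Bool)
  finQ := by
    have := T.finS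
    have := T.finY
    exact Finite.of_injective _ St.code_inj
  finW := by
    have := T.finY
    infer_instance
  inp := Sum.inl
  inp_inj := Sum.inl_injective
  δ := del T n
  q0 := .R T.s0 none 1
  F := {q | ∃ s o c, q = .R s o c ∧ s ∈ T.acc}

/-- The content of the tape when the cells `1, ..., t - 1` have been visited. -/
def tp (T : QM A) (n : ℕ) (w : List A) (y : ℕ → T.Y) (t : ℕ) : ℕ → Sym (A ⊕ (T.Y × Bool))
  | 0 => .lm
  | i + 1 => if i + 1 < t then .sym (.inr (y i, decide (n ∣ i + 1))) else
      match w[i]? with
      | some a => .sym (.inl a)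
      | none => .rm

theorem tp_zero (T : QM A) (n : ℕ) (w : List A) (y : ℕ → T.Y) (t : ℕ) :
    tp T n w y t 0 = .lm := rfl

theorem tp_succ (T : QM A) (n : ℕ) (w : List A) (y : ℕ → T.Y) (t i : ℕ) :
    tp T n w y t (i + 1) = if i + 1 < t then .sym (.inr (y i, decide (n ∣ i + 1))) else
      match w[i]? with
      | some a => .sym (.inl a)
      | none => .rm := rfl

theorem tp_lt (T : QM A) (n : ℕ) (w : List A) (y : ℕ → T.Y) (t i : ℕ) (h : i + 1 < t) :
    tp T n w y t (i + 1) = .sym (.inr (y i, decide (n ∣ i + 1))) := by
  rw [tp_succ, if_pos h]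

theorem tp_ge (T : QM A) (n : ℕ) (w : List A) (y : ℕ → T.Y) (t i : ℕ) (h : t ≤ i + 1) (a : A)
    (ha : w[i]? = some a) : tp T n w y t (i + 1) = .sym (.inl a) := by
  rw [tp_succ, if_neg (by omega), ha]

theorem tp_rm (T : QM A) (n : ℕ) (w : List A) (y : ℕ → T.Y) (t i : ℕ) (h : t ≤ i + 1)
    (ha : w.length ≤ i) : tp T n w y t (i + 1) = .rm := by
  rw [tp_succ, if_neg (by omega), List.getElem?_eq_none ha]

theorem tp_one (T : QM A) (n : ℕ) [NeZero n] [Finite A] (w : List A) (y : ℕ → T.Y) :
    tp T n w y 1 = initTape (mach T n) w := by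
  funext i
  cases i with
  | zero => rfl
  | succ i =>
    rw [tp_succ, if_neg (by omega)]
    rfl

theorem tp_update (T : QM A) (n : ℕ) (w : List A) (y : ℕ → T.Y) (i : ℕ) (z : T.Y) :
    Function.update (tp T n w y (i + 1)) (i + 1) (.sym (.inr (z, decide (n ∣ i + 1)))) =
      tp T n w (Function.update y i z) (i + 2) := by
  funext j
  cases j with
  | zero =>
    rw [Function.update_of_ne (by omega)]
    rfl
  | succ j =>
    by_cases hj : j = i
    · subst hj
      rw [Function.update_self, tp_lt _ _ _ _ _ _ (by omega), Function.update_self]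
    · rw [Function.update_of_ne (by omega)]
      by_cases h : j < i
      · rw [tp_lt _ _ _ _ _ _ (by omega), tp_lt _ _ _ _ _ _ (by omega),
          Function.update_of_ne hj]
      · rw [tp_succ, tp_succ, if_neg (by omega), if_neg (by omega)]

theorem Run.step {T : QM A} {k : ℕ} (hk : 1 ≤ k) {w : List A} {m : ℕ} {s : ℕ → T.S} {y : ℕ → T.Y}
    (h : T.Run k w m s y) {a : A} (ha : w[m]? = some a) {s' : T.S} {y' : T.Y}
    (ht : T.tr (s m) (T.front k y m) a s' y') :
    T.Run k w (m + 1) (Function.update s (m + 1) s') (Function.update y m y') := by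
  refine ⟨?_, ?_⟩
  · rw [Function.update_of_ne (by omega)]
    exact h.1
  · intro i b hi hb
    have hf : T.front k (Function.update y m y') i = T.front k y i := by
      unfold QM.front
      by_cases h1 : i < k
      · rw [if_pos h1, if_pos h1]
      · rw [if_neg h1, if_neg h1, Function.update_of_ne (by omega)]
    rw [hf, Function.update_of_ne (show i ≠ m + 1 by omega)]
    by_cases him : i = m
    · subst him
      rw [ha] at hb
      obtain rfl := Option.some.inj hb
      rw [Function.update_self, Function.update_self]
      exact ht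
    · rw [Function.update_of_ne (show i + 1 ≠ m + 1 by omega), Function.update_of_ne him]
      exact h.2 i b (by omega) hb

end Pool.Agent.L0h67.CQ
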