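import Mathlib
import Pool.Agent.L0h67.CQ.Defs

set_option autoImplicit false

namespace Pool.Agent.L0h67.CQ

open Pool.Agent.H630R2.LA

variable {A : Type}

/-- What is known about the state and the position of the head if `t` is the first unvisited
cell. -/
def SI (T : QM A) (n N t : ℕ) (s : ℕ → T.S) (y : ℕ → T.Y) : St T.S T.Y n → ℕ → Prop
  | .L s' j, p => p < t ∧ s' = s (t - 1) ∧ (t - 1) / n < p / n + n ∧
      j = (((t - 1) / n - p / n : ℕ) : ZMod n)
  | .W s', p => p < t ∧ s' = s (t - 1) ∧ (t - 1) / n = p / n + n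
  | .R s' (some (z, b)) c, p => s' = s (t - 1) ∧ (p ≤ t ∨ t = N + 1) ∧
      ∃ x, 1 ≤ x ∧ x < p ∧ (x - 1) / n + n = (t - 1) / n ∧ z = y (x - 1) ∧ b = decide (n ∣ x) ∧
        c = (p : ZMod n) - x
  | .R s' none c, p => s' = s (t - 1) ∧ (p ≤ t ∨ t = N + 1) ∧ 1 ≤ p ∧ (t - 1) / n < n ∧
      c = (p : ZMod n)

/-- The invariant of the reachable configurations. -/
def Inv (T : QM A) (n : ℕ) [NeZero n] [Finite A] (w : List A) (c : Cfg (mach T n)) : Prop :=
  ∃ (t : ℕ) (s : ℕ → T.S) (y : ℕ → T.Y), 1 ≤ t ∧ t ≤ w.length + 1 ∧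
    T.Run (n ^ 2) w (t - 1) s y ∧ c.tape = tp T n w y t ∧
    (∀ i, 1 ≤ i → i ≤ w.length → (i ∈ c.seen ↔ i < t)) ∧
    SI T n w.length t s y c.state c.pos

theorem mkInv {T : QM A} {n : ℕ} [NeZero n] [Finite A] {w : List A} {st : St T.S T.Y n} {p : ℕ}
    {tape : ℕ → Sym (A ⊕ (T.Y × Bool))} {seen : Set ℕ} (t : ℕ) (s : ℕ → T.S) (y : ℕ → T.Y)
    (h1 : 1 ≤ t) (h2 : t ≤ w.length + 1) (h3 : T.Run (n ^ 2) w (t - 1) s y)
    (h4 : tape = tp T n w y t) (h5 : ∀ i, 1 ≤ i → i ≤ w.length → (i ∈ seen ↔ i < t))
    (h6 : SI T n w.length t s y st p) :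
    Inv T n w (⟨st, p, tape, seen⟩ : Cfg (mach T n)) := ⟨t, s, y, h1, h2, h3, h4, h5, h6⟩

theorem inv_init (T : QM A) (n : ℕ) [NeZero n] [Finite A] (w : List A) :
    Inv T n w (init (mach T n) w) := by
  have := T.y0
  refine ⟨1, fun _ => T.s0, fun _ => T.y0, le_refl _, by omega, ⟨rfl, fun i a hi => by omega⟩, ?_,
    ?_, ?_⟩
  · exact (tp_one T n w _).symm
  · intro i h1 h2
    constructor
    · intro h
      exact absurd h (Set.notMem_empty i)
    · intro h
      omega
  · refine ⟨rfl, Or.inl (le_refl _), le_refl _, ?_, ?_⟩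
    · have : 0 < n := Nat.pos_of_ne_zero (NeZero.ne n)
      simpa using this
    · simp [init]

theorem div_succ_of_dvd {n i : ℕ} (h : n ∣ i + 1) : (i + 1) / n = i / n + 1 := by
  rw [Nat.succ_div, if_pos h]

theorem div_succ_of_not_dvd {n i : ℕ} (h : ¬ n ∣ i + 1) : (i + 1) / n = i / n := by
  rw [Nat.succ_div, if_neg h]
  rfl

/-- The position of the symbol at the front of the queue is determined by the window and the
residue. -/
theorem window {n x t : ℕ} (hx : 1 ≤ x) (ht : 1 ≤ t)
    (h1 : (x - 1) / n + n = (t - 1) / n) (h2 : (t : ZMod n) - x = 0) : t = x + n ^ 2 := by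
  obtain ⟨x, rfl⟩ := Nat.exists_eq_add_of_le' hx
  obtain ⟨t, rfl⟩ := Nat.exists_eq_add_of_le' ht
  simp only [Nat.add_sub_cancel] at h1
  have h3 : (t : ZMod n) = (x : ZMod n) := by
    have h4 := sub_eq_zero.1 h2
    push_cast at h4
    exact add_right_cancel h4
  rw [ZMod.natCast_eq_natCast_iff'] at h3
  have h5 := Nat.div_add_mod t n
  have h6 := Nat.div_add_mod x n
  have h7 : t = n * (x / n + n) + x % n := by
    rw [h1, ← h3]
    exact h5.symm
  have h8 : n * (x / n + n) = n * (x / n) + n ^ 2 := by ring
  omega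

theorem keep {T : QM A} {n : ℕ} {w : List A} {y : ℕ → T.Y} {t p : ℕ} {seen : Set ℕ}
    {tape' : ℕ → Sym (A ⊕ (T.Y × Bool))} {b : A ⊕ (T.Y × Bool)}
    (hA : p ∈ seen → tape' = tp T n w y t)
    (hB : p ∉ seen → tape' = Function.update (tp T n w y t) p ((tp T n w y t p).rewrite b))
    (h : p ∈ seen ∨ (tp T n w y t p).rewrite b = tp T n w y t p) : tape' = tp T n w y t := by
  by_cases hp : p ∈ seen
  · exact hA hp
  · rcases h with h | h
    · exact absurd h hp
    · rw [hB hp, h, Function.update_eq_self]

theorem seen_keep {N t p : ℕ} {seen : Set ℕ} (h : ∀ i, 1 ≤ i → i ≤ N → (i ∈ seen ↔ i < t))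
    (hp : p < t ∨ N < p) : ∀ i, 1 ≤ i → i ≤ N → (i ∈ insert p seen ↔ i < t) := by
  intro i h1 h2
  rw [Set.mem_insert_iff, h i h1 h2]
  omega

theorem seen_next {N t : ℕ} {seen : Set ℕ} (h : ∀ i, 1 ≤ i → i ≤ N → (i ∈ seen ↔ i < t)) :
    ∀ i, 1 ≤ i → i ≤ N → (i ∈ insert t seen ↔ i < t + 1) := by
  intro i h1 h2
  rw [Set.mem_insert_iff, h i h1 h2]
  omega

theorem cast_lt {n v : ℕ} [NeZero n] (h : v < n) : ((v : ZMod n)).val = v :=
  ZMod.val_cast_of_lt h

/-- The counter of the marks, before the last one. -/
theorem count_next {n v : ℕ} (h : v < n) : ((v : ZMod n) + 1 = 0) ↔ v + 1 = n := by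
  have h1 : ((v : ZMod n) + 1 = 0) ↔ n ∣ v + 1 := by
    rw [← ZMod.natCast_eq_zero_iff]
    push_cast
    rfl
  rw [h1]
  constructor
  · intro h2
    have := Nat.le_of_dvd (by omega) h2
    omega
  · intro h2
    rw [h2]

theorem div_diff {n : ℕ} (i : ℕ) :
    (if decide (n ∣ i + 1) then (1 : ZMod n) else 0) = (((i + 1) / n - i / n : ℕ) : ZMod n) := by
  by_cases h : n ∣ i + 1
  · rw [decide_eq_true h, div_succ_of_dvd h]
    simp
  · rw [decide_eq_false h, div_succ_of_not_dvd h]
    simp

theorem write_step {T : QM A} {n : ℕ} (hn : 2 ≤ n) [NeZero n] [Finite A] {w : List A}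
    {s : ℕ → T.S} {y : ℕ → T.Y} {i : ℕ} {seen : Set ℕ} {tape' : ℕ → Sym (A ⊕ (T.Y × Bool))}
    (hN : i + 1 ≤ w.length) (hrun : T.Run (n ^ 2) w i s y)
    (hseen : ∀ k, 1 ≤ k → k ≤ w.length → (k ∈ seen ↔ k < i + 1)) {a : A} (ha : w[i]? = some a)
    {s1 : T.S} {y1 : T.Y} (htr : T.tr (s i) (T.front (n ^ 2) y i) a s1 y1) {bb : Bool}
    (hbb : bb = decide (n ∣ i + 1))
    (h5 : tape' = Function.update (tp T n w y (i + 1)) (i + 1) (.sym (.inr (y1, bb)))) :
    Inv T n w (⟨.L s1 (if bb then 1 else 0), i, tape', insert (i + 1) seen⟩ :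
      Cfg (mach T n)) := by
  subst hbb
  rw [tp_update] at h5
  refine mkInv (i + 2) (Function.update s (i + 1) s1) (Function.update y i y1) (by omega)
    (by omega) ?_ h5 (seen_next hseen) ⟨by omega, ?_, ?_, ?_⟩
  · exact Run.step (Nat.one_le_pow _ _ (by omega)) hrun ha htr
  · exact (Function.update_self (i + 1) s1 s).symm
  · show (i + 1) / n < i / n + n
    by_cases h : n ∣ i + 1
    · rw [div_succ_of_dvd h]
      omega
    · rw [div_succ_of_not_dvd h]
      omega
  · exact div_diff i

theorem inv_step (T : QM A) (n : ℕ) (hn : 2 ≤ n) [NeZero n] [Finite A] (w : List A)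
    (strict : Prop) (c c' : Cfg (mach T n)) (hI : Inv T n w c)
    (hS : Step strict w.length c c') : Inv T n w c' := by
  obtain ⟨t, s, y, ht1, ht2, hrun, htape, hseen, hSI⟩ := hI
  obtain ⟨hpos, q, b, d, hmem, -, hq, hA, hB, hC, hD, hE⟩ := hS
  obtain ⟨st, p, tape, seen⟩ := c
  obtain ⟨st', p', tape', seen'⟩ := c'
  dsimp only at hpos hmem hq hA hB hC hD hE htape hseen hSI
  subst htape hq hC
  have hn0 : 0 < n := by omega
  cases st with
  | L s' j =>
    obtain ⟨h1, h2, h3, h4⟩ := hSI
    cases p with
    | zero =>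
      have hm : (st', b, d) = (St.R s' none 1, Sum.inr (T.y0, false), true) := hmem
      cases hm
      have h5 := keep hA hB (Or.inr rfl)
      refine mkInv t s y ht1 ht2 hrun h5 (seen_keep hseen (Or.inl h1)) ?_
      have h6 := hD rfl
      subst h6
      refine ⟨h2, Or.inl ht1, le_refl _, ?_, ?_⟩
      · simpa using h3
      · simp
    | succ i =>
      have hps : i + 1 ∈ seen := (hseen (i + 1) (by omega) (by omega)).2 h1
      have h5 := keep hA hB (Or.inl hps)
      rw [tp_lt _ _ _ _ _ _ h1] at hmem
      by_cases hd : n ∣ i + 1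
      · rw [decide_eq_true hd] at hmem
        rw [div_succ_of_dvd hd] at h3 h4
        have hv : (t - 1) / n - (i / n + 1) < n := by omega
        have hle : (i + 1) / n ≤ (t - 1) / n := Nat.div_le_div_right (by omega)
        rw [div_succ_of_dvd hd] at hle
        rcases hmem with ⟨h6, h7⟩ | ⟨h6, h7 | h7⟩
        · cases h7
          have h8 : p' = i := by have := hE rfl; omega
          subst h8
          rw [h4, Ne, count_next hv] at h6
          refine mkInv t s y ht1 ht2 hrun h5 (seen_keep hseen (Or.inl h1)) ⟨ by omega, h2,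
            by omega, ?_⟩
          rw [h4]
          have h9 : (t - 1) / n - p' / n = (t - 1) / n - (p' / n + 1) + 1 := by omega
          rw [h9]
          push_cast
          rfl
        · cases h7
          have h8 : p' = i := by have := hE rfl; omega
          subst h8
          rw [h4, count_next hv] at h6
          exact mkInv t s y ht1 ht2 hrun h5 (seen_keep hseen (Or.inl h1)) ⟨ by omega, h2,
            by omega⟩
        · cases h7
          have h8 : p' = i + 1 + 1 := hD rfl
          subst h8
          rw [h4, count_next hv] at h6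
          refine mkInv t s y ht1 ht2 hrun h5 (seen_keep hseen (Or.inl h1)) ⟨ h2, Or.inl (by omega),
            i + 1, by omega, by omega, ?_, rfl, (decide_eq_true hd).symm, ?_⟩
          · rw [Nat.add_sub_cancel]
            omega
          · push_cast
            ring
      · rw [decide_eq_false hd] at hmem
        rw [div_succ_of_not_dvd hd] at h3 h4
        have h7 : (st', b, d) = (St.L s' j, Sum.inr (y i, false), false) := hmem
        cases h7
        have h8 : p' = i := by have := hE rfl; omega
        subst h8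
        exact mkInv t s y ht1 ht2 hrun h5 (seen_keep hseen (Or.inl h1)) ⟨ by omega, h2, h3, h4⟩
  | W s' =>
    obtain ⟨h1, h2, h3⟩ := hSI
    cases p with
    | zero => exact absurd hmem (Set.notMem_empty _)
    | succ i =>
      have hps : i + 1 ∈ seen := (hseen (i + 1) (by omega) (by omega)).2 h1
      have h5 := keep hA hB (Or.inl hps)
      rw [tp_lt _ _ _ _ _ _ h1] at hmem
      by_cases hd : n ∣ i + 1
      · rw [decide_eq_true hd] at hmem
        exact absurd hmem (Set.notMem_empty _)
      · rw [decide_eq_false hd] at hmem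
        rw [div_succ_of_not_dvd hd] at h3
        rcases hmem with h7 | h7
        · cases h7
          have h8 : p' = i := by have := hE rfl; omega
          subst h8
          exact mkInv t s y ht1 ht2 hrun h5 (seen_keep hseen (Or.inl h1)) ⟨ by omega, h2, h3⟩
        · cases h7
          have h8 : p' = i + 1 + 1 := hD rfl
          subst h8
          refine mkInv t s y ht1 ht2 hrun h5 (seen_keep hseen (Or.inl h1)) ⟨ h2, Or.inl (by omega),
            i + 1, by omega, by omega, ?_, rfl, (decide_eq_false hd).symm, ?_⟩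
          · rw [Nat.add_sub_cancel]
            omega
          · push_cast
            ring
  | R s' o j =>
    have h2 : s' = s (t - 1) := by
      rcases o with _ | ⟨z, bb⟩
      · exact hSI.1
      · exact hSI.1
    have hpt : p ≤ t ∨ t = w.length + 1 := by
      rcases o with _ | ⟨z, bb⟩
      · exact hSI.2.1
      · exact hSI.2.1
    have hp1 : 1 ≤ p := by
      rcases o with _ | ⟨z, bb⟩
      · exact hSI.2.2.1
      · obtain ⟨-, -, x, h3, h4, -⟩ := hSI
        omega
    obtain ⟨i, rfl⟩ := Nat.exists_eq_add_of_le' hp1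
    by_cases hlt : i + 1 < t
    · -- moving over visited cells
      have hps : i + 1 ∈ seen := (hseen (i + 1) (by omega) (by omega)).2 hlt
      have h5 := keep hA hB (Or.inl hps)
      rw [tp_lt _ _ _ _ _ _ hlt] at hmem
      have h7 : (st', b, d) = (St.R s' o (j + 1), Sum.inr (y i, decide (n ∣ i + 1)), true) := hmem
      cases h7
      have h8 : p' = i + 1 + 1 := hD rfl
      subst h8
      refine mkInv t s y ht1 ht2 hrun h5 (seen_keep hseen (Or.inl hlt)) ?_
      rcases o with _ | ⟨z, bb⟩
      · obtain ⟨-, -, h3, h4, h6⟩ := hSI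
        refine ⟨h2, Or.inl (by omega), by omega, h4, ?_⟩
        rw [h6]
        push_cast
        rfl
      · obtain ⟨-, -, x, h3, h4, h6, h9, h10, h11⟩ := hSI
        refine ⟨h2, Or.inl (by omega), x, h3, by omega, h6, h9, h10, ?_⟩
        rw [h11]
        push_cast
        ring
    · by_cases hN : i + 1 ≤ w.length
      · -- the new cell
        have hti : t = i + 1 := by omega
        subst hti
        obtain ⟨a, ha⟩ : ∃ a, w[i]? = some a := ⟨_, List.getElem?_eq_getElem (by omega)⟩
        have hns : i + 1 ∉ seen := fun h => by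
          have := (hseen (i + 1) (by omega) hN).1 h
          omega
        have h5 := hB hns
        rw [tp_ge _ _ _ _ _ _ (le_refl _) a ha] at hmem h5
        rcases o with _ | ⟨z, bb⟩
        · obtain ⟨-, -, -, h4, h6⟩ := hSI
          obtain ⟨s1, y1, h9, h10⟩ := hmem
          cases h10
          have h8 : p' = i := by have := hE rfl; omega
          subst h8
          have hi : p' < n ^ 2 := by
            rw [pow_two]
            exact (Nat.div_lt_iff_lt_mul hn0).1 h4
          have hf : T.front (n ^ 2) y p' = T.y0 := by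
            unfold QM.front
            rw [if_pos hi]
          have hb : decide (j = 0) = decide (n ∣ p' + 1) := by
            rw [h6]
            exact decide_eq_decide.2 (ZMod.natCast_eq_zero_iff _ _)
          have hw := write_step hn (seen := seen) hN hrun hseen ha (s1 := s1) (y1 := y1)
            (by rw [hf]; rw [h2] at h9; exact h9) hb h5
          have hj : (if j = 0 then (1 : ZMod n) else 0) =
              (if decide (j = 0) = true then (1 : ZMod n) else 0) := by
            by_cases hj0 : j = 0
            · rw [if_pos hj0, if_pos (decide_eq_true hj0)]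
            · rw [if_neg hj0, if_neg (by simpa using hj0)]
          rw [hj]
          exact hw
        · obtain ⟨-, -, x, h3, h4, h6, h9, h10, h11⟩ := hSI
          obtain ⟨h12, s1, y1, h13, h14⟩ := hmem
          cases h14
          have h8 : p' = i := by have := hE rfl; omega
          subst h8
          have hx : p' + 1 = x + n ^ 2 := by
            apply window h3 (by omega) h6
            rw [← h11]
            exact h12
          have hf : T.front (n ^ 2) y p' = z := by
            unfold QM.front
            rw [if_neg (by omega), h9]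
            congr 1
            omega
          have hb : bb = decide (n ∣ p' + 1) := by
            rw [h10]
            refine decide_eq_decide.2 ?_
            rw [hx]
            exact (Nat.dvd_add_left (dvd_pow_self n (by norm_num))).symm
          exact write_step hn (seen := seen) hN hrun hseen ha (s1 := s1) (y1 := y1)
            (by rw [hf]; rw [h2] at h13; exact h13) hb h5
      · -- the right end-marker
        have htN : t = w.length + 1 := by omega
        rw [tp_rm _ _ _ _ _ _ (by omega) (by omega)] at hmem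
        have hr : (tp T n w y t (i + 1)).rewrite b = tp T n w y t (i + 1) := by
          rw [tp_rm _ _ _ _ _ _ (by omega) (by omega)]
          rfl
        have h5 := keep hA hB (Or.inr hr)
        have h7 : (st', b, d) = (St.R s' o (j + 1), Sum.inr (T.y0, false), true) := by
          rcases o with _ | ⟨z, bb⟩
          · exact hmem
          · exact hmem
        cases h7
        have h8 : p' = i + 1 + 1 := hD rfl
        subst h8
        refine mkInv t s y ht1 ht2 hrun h5 (seen_keep hseen (Or.inr (by omega))) ?_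
        rcases o with _ | ⟨z, bb⟩
        · obtain ⟨-, -, h3, h4, h6⟩ := hSI
          refine ⟨h2, Or.inr htN, by omega, h4, ?_⟩
          rw [h6]
          push_cast
          rfl
        · obtain ⟨-, -, x, h3, h4, h6, h9, h10, h11⟩ := hSI
          refine ⟨h2, Or.inr htN, x, h3, by omega, h6, h9, h10, ?_⟩
          rw [h11]
          push_cast
          ring

/-- Soundness: an accepted input is in the language of the queue machine. -/
theorem sound (T : QM A) (n : ℕ) (hn : 2 ≤ n) [NeZero n] [Finite A] (strict : Prop) (w : List A)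
    (h : w ∈ (mach T n).language strict) : w ∈ T.lang (n ^ 2) := by
  obtain ⟨c, hreach, hpos, hF⟩ := h
  have hI : Inv T n w c := by
    clear hpos hF
    induction hreach with
    | refl => exact inv_init T n w
    | tail _ hst ih => exact inv_step T n hn w strict _ _ ih hst
  obtain ⟨t, s, y, ht1, ht2, hrun, htape, hseen, hSI⟩ := hI
  obtain ⟨st, p, tape, seen⟩ := c
  obtain ⟨s', o, j, hst, hacc⟩ := hF
  dsimp only at hpos hst hSI
  subst hst
  have h2 : s' = s (t - 1) := by
    rcases o with _ | ⟨z, bb⟩
    · exact hSI.1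
    · exact hSI.1
  have hpt : p ≤ t ∨ t = w.length + 1 := by
    rcases o with _ | ⟨z, bb⟩
    · exact hSI.2.1
    · exact hSI.2.1
  have ht : t = w.length + 1 := by omega
  subst ht
  refine ⟨s, y, hrun, ?_⟩
  rw [h2] at hacc
  exact hacc

end Pool.Agent.L0h67.CQ
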