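import Mathlib
import Pool.Agent.L0h67.CQ.Sound

set_option autoImplicit false

namespace Pool.Agent.L0h67.CQ

open Pool.Agent.H630R2.LA

variable {A : Type}

/-- The configuration with state `q` and head position `p` is reachable with the cells
`1, ..., t - 1` visited. -/
def Rch (T : QM A) (n : ℕ) [NeZero n] [Finite A] (strict : Prop) (w : List A) (y : ℕ → T.Y)
    (q : St T.S T.Y n) (p t : ℕ) : Prop :=
  ∃ seen : Set ℕ, (∀ i, 1 ≤ i → i ≤ w.length → (i ∈ seen ↔ i < t)) ∧
    Relation.ReflTransGen (Step strict w.length) (init (mach T n) w)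
      (⟨q, p, tp T n w y t, seen⟩ : Cfg (mach T n))

theorem Rch.init {T : QM A} {n : ℕ} [NeZero n] [Finite A] {strict : Prop} {w : List A}
    {y : ℕ → T.Y} : Rch T n strict w y (.R T.s0 none 1) 1 1 := by
  refine ⟨∅, ?_, ?_⟩
  · intro i h1 h2
    constructor
    · intro h
      exact absurd h (Set.notMem_empty i)
    · intro h
      omega
  · rw [tp_one]
    exact Relation.ReflTransGen.refl

/-- A move that does not write. -/
theorem Rch.move {T : QM A} {n : ℕ} [NeZero n] [Finite A] {strict : Prop} {w : List A}
    {y : ℕ → T.Y} {q q' : St T.S T.Y n} {p p' t : ℕ} {b : A ⊕ (T.Y × Bool)} {d : Bool}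
    (h : Rch T n strict w y q p t) (hp : p ≤ w.length + 1) (hm : (q', b, d) ∈ del T n q (tp T n w y t p))
    (hb : (tp T n w y t p).rewrite b = tp T n w y t p) (hpt : p < t ∨ w.length < p)
    (hd1 : d = true → p' = p + 1) (hd2 : d = false → p' + 1 = p) :
    Rch T n strict w y q' p' t := by
  obtain ⟨seen, hs, hr⟩ := h
  refine ⟨insert p seen, seen_keep hs hpt, hr.tail ?_⟩
  refine ⟨hp, q', b, d, hm, fun _ _ => hb, rfl, fun _ => rfl, fun _ => ?_, rfl, hd1, hd2⟩
  show tp T n w y t = Function.update (tp T n w y t) p ((tp T n w y t p).rewrite b)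
  rw [hb, Function.update_eq_self]

theorem Rch.write {T : QM A} {n : ℕ} [NeZero n] [Finite A] {strict : Prop} {w : List A}
    {y : ℕ → T.Y} {q q' : St T.S T.Y n} {i : ℕ}
    (h : Rch T n strict w y q (i + 1) (i + 1)) (hp : i + 1 ≤ w.length)
    (hm : (q', (Sum.inr (y i, decide (n ∣ i + 1)) : A ⊕ (T.Y × Bool)), false) ∈
      del T n q (tp T n w y (i + 1) (i + 1))) :
    Rch T n strict w y q' i (i + 2) := by
  obtain ⟨seen, hs, hr⟩ := h
  have hns : i + 1 ∉ seen := fun h => by
    have := (hs (i + 1) (by omega) hp).1 h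
    omega
  refine ⟨insert (i + 1) seen, seen_next hs, hr.tail ?_⟩
  refine ⟨by show i + 1 ≤ w.length + 1; omega, q', Sum.inr (y i, decide (n ∣ i + 1)), false, hm,
    fun _ h => absurd h hns, rfl, fun h => absurd h hns, fun _ => ?_, rfl,
    fun h => by simp at h, fun _ => rfl⟩
  obtain ⟨a, ha⟩ : ∃ a, w[i]? = some a := ⟨_, List.getElem?_eq_getElem (by omega)⟩
  show tp T n w y (i + 2) = Function.update (tp T n w y (i + 1)) (i + 1)
    ((tp T n w y (i + 1) (i + 1)).rewrite (Sum.inr (y i, decide (n ∣ i + 1))))
  rw [tp_ge _ _ _ _ _ _ (le_refl _) a ha]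
  show _ = Function.update (tp T n w y (i + 1)) (i + 1) (.sym (.inr (y i, decide (n ∣ i + 1))))
  rw [tp_update, Function.update_eq_self]

/-- Moving to the right over visited cells. -/
theorem Rch.right {T : QM A} {n : ℕ} [NeZero n] [Finite A] {strict : Prop} {w : List A}
    {y : ℕ → T.Y} {s : T.S} {o : Option (T.Y × Bool)} {t : ℕ} (ht : t ≤ w.length + 1) (r : ℕ) :
    ∀ {c : ZMod n} {p : ℕ}, 1 ≤ p → p + r = t → Rch T n strict w y (.R s o c) p t →
      Rch T n strict w y (.R s o (c + r)) t t := by
  induction r with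
  | zero =>
    intro c p _ hpt h
    obtain rfl : p = t := by omega
    simpa using h
  | succ r ih =>
    intro c p hp hpt h
    obtain ⟨i, rfl⟩ := Nat.exists_eq_add_of_le' hp
    have h1 : tp T n w y t (i + 1) = .sym (.inr (y i, decide (n ∣ i + 1))) :=
      tp_lt _ _ _ _ _ _ (by omega)
    have h2 : Rch T n strict w y (.R s o (c + 1)) (i + 2) t := by
      apply h.move (b := .inr (y i, decide (n ∣ i + 1))) (d := true) (by omega)
      · rw [h1]
        rfl
      · rw [h1]
        rfl
      · left
        omega
      · intro _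
        rfl
      · intro h
        simp at h
    have h3 := ih (by omega) (by omega) h2
    rwa [show c + 1 + (r : ZMod n) = c + ((r + 1 : ℕ) : ZMod n) by push_cast; ring] at h3

/-- Moving to the left, counting marks. -/
theorem Rch.left {T : QM A} {n : ℕ} [NeZero n] [Finite A] {strict : Prop} {w : List A}
    {y : ℕ → T.Y} {s : T.S} {t : ℕ} (ht : t ≤ w.length + 1) (r : ℕ) :
    ∀ {p q : ℕ}, p + r = q → q < t → (t - 1) / n < p / n + n →
      Rch T n strict w y (.L s (((t - 1) / n - q / n : ℕ) : ZMod n)) q t →
      Rch T n strict w y (.L s (((t - 1) / n - p / n : ℕ) : ZMod n)) p t := by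
  induction r with
  | zero =>
    intro p q hpq _ _ h
    obtain rfl : p = q := by omega
    exact h
  | succ r ih =>
    intro p q hpq hq hw h
    have hq' : q = (p + r) + 1 := by omega
    subst hq'
    refine ih rfl (by omega) hw ?_
    have h1 : tp T n w y t (p + r + 1) = .sym (.inr (y (p + r), decide (n ∣ p + r + 1))) :=
      tp_lt _ _ _ _ _ _ (by omega)
    have hpr : p / n ≤ (p + r) / n := Nat.div_le_div_right (by omega)
    apply h.move (b := .inr (y (p + r), decide (n ∣ p + r + 1))) (d := false) (by omega)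
    · rw [h1]
      by_cases hd : n ∣ p + r + 1
      · rw [decide_eq_true hd]
        left
        have hle : (p + r + 1) / n ≤ (t - 1) / n := Nat.div_le_div_right (by omega)
        rw [div_succ_of_dvd hd] at hle ⊢
        have hv : (t - 1) / n - ((p + r) / n + 1) < n := by omega
        refine ⟨?_, ?_⟩
        · rw [Ne, count_next hv]
          omega
        · have h9 : (t - 1) / n - (p + r) / n = (t - 1) / n - ((p + r) / n + 1) + 1 := by omega
          rw [h9]
          push_cast
          rfl
      · rw [decide_eq_false hd, div_succ_of_not_dvd hd]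
        rfl
    · rw [h1]
      rfl
    · left
      omega
    · intro h
      simp at h
    · intro _
      rfl

/-- Moving to the left behind the last mark. -/
theorem Rch.wait {T : QM A} {n : ℕ} [NeZero n] [Finite A] {strict : Prop} {w : List A}
    {y : ℕ → T.Y} {s : T.S} {t : ℕ} (ht : t ≤ w.length + 1) (r : ℕ) :
    ∀ {p q : ℕ}, p + r = q → q < t → p / n = q / n →
      Rch T n strict w y (.W s) q t → Rch T n strict w y (.W s) p t := by
  induction r with
  | zero =>
    intro p q hpq _ _ h
    obtain rfl : p = q := by omega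
    exact h
  | succ r ih =>
    intro p q hpq hq hw h
    have hq' : q = (p + r) + 1 := by omega
    subst hq'
    have hpr : p / n ≤ (p + r) / n := Nat.div_le_div_right (by omega)
    have hd : ¬ n ∣ p + r + 1 := by
      intro hd
      rw [div_succ_of_dvd hd] at hw
      omega
    refine ih rfl (by omega) (by rw [hw, div_succ_of_not_dvd hd]) ?_
    have h1 : tp T n w y t (p + r + 1) = .sym (.inr (y (p + r), decide (n ∣ p + r + 1))) :=
      tp_lt _ _ _ _ _ _ (by omega)
    apply h.move (b := .inr (y (p + r), decide (n ∣ p + r + 1))) (d := false) (by omega)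
    · rw [h1, decide_eq_false hd]
      left
      rfl
    · rw [h1]
      rfl
    · left
      omega
    · intro h
      simp at h
    · intro _
      rfl

end Pool.Agent.L0h67.CQ
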