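import Mathlib
import Pool.Agent.L0h67.CQ.Complete

set_option autoImplicit false

namespace Pool.Agent.L0h67.CQ

open Pool.Agent.H630R2.LA

variable {A : Type}

/-- The state in which the automaton arrives at the cell `i + 1`. -/
def front (T : QM A) (n : ℕ) (s : ℕ → T.S) (y : ℕ → T.Y) (i : ℕ) : St T.S T.Y n :=
  if i < n ^ 2 then .R (s i) none ((i + 1 : ℕ) : ZMod n)
  else .R (s i) (some (y (i - n ^ 2), decide (n ∣ i + 1))) 0

theorem trip_short {T : QM A} {n : ℕ} [NeZero n] [Finite A] {strict : Prop} {w : List A}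
    {s : ℕ → T.S} {y : ℕ → T.Y} {i : ℕ} (hN : i + 1 ≤ w.length) (hi : i + 1 < n ^ 2)
    (h : Rch T n strict w y (.L (s (i + 1)) (((i + 1) / n - i / n : ℕ) : ZMod n)) i (i + 2)) :
    Rch T n strict w y (front T n s y (i + 1)) (i + 2) (i + 2) := by
  have hn0 : 0 < n := Nat.pos_of_ne_zero (NeZero.ne n)
  have hd : (i + 1) / n < n := by
    rw [Nat.div_lt_iff_lt_mul hn0, ← pow_two]
    exact hi
  have h1 := Rch.left (by omega) i (p := 0) (q := i) (by omega) (by omega)
    (by simpa using hd) h
  have h2 : Rch T n strict w y (.R (s (i + 1)) none 1) 1 (i + 2) := by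
    apply h1.move (b := .inr (T.y0, false)) (d := true) (by omega)
    · rfl
    · rfl
    · left
      omega
    · intro _
      rfl
    · intro h
      simp at h
  have h3 := Rch.right (by omega) (i + 1) (le_refl 1) (by omega) h2
  unfold front
  rw [if_pos hi]
  rwa [show (1 : ZMod n) + ((i + 1 : ℕ) : ZMod n) = ((i + 1 + 1 : ℕ) : ZMod n) by
    push_cast; ring] at h3

theorem trip_long {T : QM A} {n : ℕ} (hn : 2 ≤ n) [NeZero n] [Finite A] {strict : Prop}
    {w : List A} {s : ℕ → T.S} {y : ℕ → T.Y} {i : ℕ} (hN : i + 1 ≤ w.length)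
    (hi : n ^ 2 ≤ i + 1)
    (h : Rch T n strict w y (.L (s (i + 1)) (((i + 1) / n - i / n : ℕ) : ZMod n)) i (i + 2)) :
    Rch T n strict w y (front T n s y (i + 1)) (i + 2) (i + 2) := by
  have hn0 : 0 < n := by omega
  obtain ⟨x, hx⟩ : ∃ x, i + 1 = x + n ^ 2 := ⟨i + 1 - n ^ 2, by omega⟩
  have hxd : (i + 1) / n = x / n + n := by
    rw [hx, pow_two, Nat.add_mul_div_left _ _ hn0]
  obtain ⟨m, hm⟩ : ∃ m, m + 1 = n * (x / n + 1) := by
    refine ⟨n * (x / n + 1) - 1, ?_⟩
    have : 0 < n * (x / n + 1) := by positivity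
    omega
  have hxm : x ≤ m := by
    have h1 : x < n * (x / n + 1) := by
      have h2 := Nat.div_add_mod x n
      have h3 := Nat.mod_lt x hn0
      rw [mul_add, mul_one]
      omega
    omega
  have hmd : (m + 1) / n = x / n + 1 := by
    rw [hm, Nat.mul_div_cancel_left _ hn0]
  have hdm : n ∣ m + 1 := ⟨_, hm⟩
  have hmd' : m / n = x / n := by
    have := div_succ_of_dvd hdm
    omega
  have hmx : m + 1 ≤ x + n := by
    rw [hm, mul_add, mul_one]
    have := Nat.mul_div_le x n
    omega
  have hnn : n + 2 ≤ n ^ 2 := by nlinarith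
  have h1 := Rch.left (by omega) (i - (m + 1)) (p := m + 1) (q := i) (by omega) (by omega)
    (by show (i + 1) / n < _; omega) h
  have hj : (((i + 2 - 1) / n - (m + 1) / n : ℕ) : ZMod n) + 1 = 0 := by
    rw [count_next (by show (i + 1) / n - (m + 1) / n < n; omega)]
    show (i + 1) / n - (m + 1) / n + 1 = n
    omega
  have hcell : ∀ k, k + 1 < i + 2 → tp T n w y (i + 2) (k + 1) =
      .sym (.inr (y k, decide (n ∣ k + 1))) := fun k hk => tp_lt _ _ _ _ _ _ hk
  have key : Rch T n strict w y (.R (s (i + 1)) (some (y x, decide (n ∣ x + 1))) 1) (x + 2)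
      (i + 2) := by
    by_cases hxe : x = m
    · subst hxe
      rw [decide_eq_true hdm]
      apply h1.move (b := .inr (y x, true)) (d := true) (by omega)
      · rw [hcell x (by omega), decide_eq_true hdm]
        right
        exact ⟨hj, Or.inr rfl⟩
      · rw [hcell x (by omega), decide_eq_true hdm]
        rfl
      · left
        omega
      · intro _
        rfl
      · intro h
        simp at h
    · have hdx : ¬ n ∣ x + 1 := by
        intro hd
        have h2 := div_succ_of_dvd hd
        have h3 : (x + 1) / n ≤ m / n := Nat.div_le_div_right (by omega)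
        omega
      have h2 : Rch T n strict w y (.W (s (i + 1))) m (i + 2) := by
        apply h1.move (b := .inr (y m, true)) (d := false) (by omega)
        · rw [hcell m (by omega), decide_eq_true hdm]
          right
          exact ⟨hj, Or.inl rfl⟩
        · rw [hcell m (by omega), decide_eq_true hdm]
          rfl
        · left
          omega
        · intro h
          simp at h
        · intro _
          rfl
      have h3 := Rch.wait (by omega) (m - (x + 1)) (p := x + 1) (q := m) (by omega) (by omega)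
        (by rw [div_succ_of_not_dvd hdx, hmd']) h2
      rw [decide_eq_false hdx]
      apply h3.move (b := .inr (y x, false)) (d := true) (by omega)
      · rw [hcell x (by omega), decide_eq_false hdx]
        right
        rfl
      · rw [hcell x (by omega), decide_eq_false hdx]
        rfl
      · left
        omega
      · intro _
        rfl
      · intro h
        simp at h
  have h4 := Rch.right (by omega) (n ^ 2 - 1) (by omega) (by omega) key
  unfold front
  rw [if_neg (by omega), show i + 1 - n ^ 2 = x by omega]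
  have h5 : (1 : ZMod n) + ((n ^ 2 - 1 : ℕ) : ZMod n) = 0 := by
    have h6 : ((1 + (n ^ 2 - 1) : ℕ) : ZMod n) = 0 := by
      rw [show 1 + (n ^ 2 - 1) = n ^ 2 by omega]
      push_cast
      simp
    push_cast at h6
    exact_mod_cast h6
  rw [h5] at h4
  have h7 : decide (n ∣ i + 1 + 1) = decide (n ∣ x + 1) := by
    refine decide_eq_decide.2 ?_
    rw [show i + 1 + 1 = (x + 1) + n ^ 2 by omega]
    exact (Nat.dvd_add_left (dvd_pow_self n (by norm_num)))
  rw [h7]
  exact h4

theorem front_reach (T : QM A) (n : ℕ) (hn : 2 ≤ n) [NeZero n] [Finite A] (strict : Prop)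
    (w : List A) (s : ℕ → T.S) (y : ℕ → T.Y) (hrun : T.Run (n ^ 2) w w.length s y) (i : ℕ)
    (hi : i ≤ w.length) : Rch T n strict w y (front T n s y i) (i + 1) (i + 1) := by
  induction i with
  | zero =>
    have h := Rch.init (T := T) (n := n) (strict := strict) (w := w) (y := y)
    unfold front
    rw [if_pos (by positivity), hrun.1]
    simpa using h
  | succ i ih =>
    have h1 := ih (by omega)
    obtain ⟨a, ha⟩ : ∃ a, w[i]? = some a := ⟨_, List.getElem?_eq_getElem (by omega)⟩
    have htr := hrun.2 i a (by omega) ha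
    have h2 : Rch T n strict w y (.L (s (i + 1)) (((i + 1) / n - i / n : ℕ) : ZMod n)) i
        (i + 2) := by
      apply h1.write hi
      rw [tp_ge _ _ _ _ _ _ (le_refl _) a ha, ← div_diff]
      unfold front
      unfold QM.front at htr
      by_cases hlt : i < n ^ 2
      · rw [if_pos hlt] at htr ⊢
        refine ⟨s (i + 1), y i, htr, ?_⟩
        have hb : decide (((i + 1 : ℕ) : ZMod n) = 0) = decide (n ∣ i + 1) :=
          decide_eq_decide.2 (ZMod.natCast_eq_zero_iff _ _)
        rw [← hb]
        by_cases h0 : ((i + 1 : ℕ) : ZMod n) = 0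
        · rw [if_pos h0, decide_eq_true h0, if_pos rfl]
        · rw [if_neg h0, decide_eq_false h0, if_neg (by simp)]
      · rw [if_neg hlt] at htr ⊢
        exact ⟨rfl, s (i + 1), y i, htr, rfl⟩
    rcases Nat.lt_or_ge (i + 1) (n ^ 2) with h3 | h3
    · exact trip_short hi h3 h2
    · exact trip_long hn hi h3 h2

/-- Completeness. -/
theorem complete (T : QM A) (n : ℕ) (hn : 2 ≤ n) [NeZero n] [Finite A] (strict : Prop)
    (w : List A) (h : w ∈ T.lang (n ^ 2)) : w ∈ (mach T n).language strict := by
  obtain ⟨s, y, hrun, hacc⟩ := h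
  have h1 := front_reach T n hn strict w s y hrun w.length (le_refl _)
  obtain ⟨o, c, ho⟩ : ∃ o c, front T n s y w.length = .R (s w.length) o c := by
    unfold front
    by_cases hlt : w.length < n ^ 2
    · exact ⟨_, _, if_pos hlt⟩
    · exact ⟨_, _, if_neg hlt⟩
  rw [ho] at h1
  obtain ⟨seen, -, hr⟩ := h1
  refine ⟨⟨.R (s w.length) o (c + 1), w.length + 2, tp T n w y (w.length + 1),
    insert (w.length + 1) seen⟩, hr.tail ?_, rfl, ⟨s w.length, o, c + 1, rfl, hacc⟩⟩
  have hrm : tp T n w y (w.length + 1) (w.length + 1) = .rm :=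
    tp_rm _ _ _ _ _ _ (le_refl _) (le_refl _)
  refine ⟨le_refl _, .R (s w.length) o (c + 1), .inr (T.y0, false), true, ?_, ?_, rfl,
    fun _ => rfl, fun _ => ?_, rfl, fun _ => rfl, fun h => by simp at h⟩
  · show _ ∈ del T n (.R (s w.length) o c) (tp T n w y (w.length + 1) (w.length + 1))
    rw [hrm]
    rcases o with _ | ⟨z, bb⟩
    · rfl
    · rfl
  · intro _ _
    show (tp T n w y (w.length + 1) (w.length + 1)).rewrite (Sum.inr (T.y0, false)) =
      tp T n w y (w.length + 1) (w.length + 1)
    rw [hrm]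
    rfl
  · show tp T n w y (w.length + 1) = Function.update (tp T n w y (w.length + 1)) (w.length + 1)
      ((tp T n w y (w.length + 1) (w.length + 1)).rewrite _)
    have : ((tp T n w y (w.length + 1) (w.length + 1)).rewrite (Sum.inr (T.y0, false))) =
      tp T n w y (w.length + 1) (w.length + 1) := by rw [hrm]; rfl
    rw [this, Function.update_eq_self]

theorem language_eq (T : QM A) (n : ℕ) (hn : 2 ≤ n) [NeZero n] [Finite A] (strict : Prop) :
    (mach T n).language strict = T.lang (n ^ 2) :=
  Set.ext fun w => ⟨sound T n hn strict w, complete T n hn strict w⟩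

/-- All moves. -/
def mv (T : QM A) (n : ℕ) : St T.S T.Y n → Sym (A ⊕ (T.Y × Bool)) → (Bool ⊕ (T.S × T.Y)) →
    St T.S T.Y n × (A ⊕ (T.Y × Bool)) × Bool
  | .L s _, .lm, _ => (.R s none 1, .inr (T.y0, false), true)
  | .L s j, .sym (.inr (y, b)), .inl false => (.L s (if b then j + 1 else j), .inr (y, b), false)
  | .L s _, .sym (.inr (y, b)), .inl true => (.W s, .inr (y, b), false)
  | .L s _, .sym (.inr (y, b)), .inr _ => (.R s (some (y, b)) 1, .inr (y, b), true)
  | .W s, .sym (.inr (y, b)), .inl _ => (.W s, .inr (y, b), false)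
  | .W s, .sym (.inr (y, b)), .inr _ => (.R s (some (y, b)) 1, .inr (y, b), true)
  | .R s o c, .sym (.inr u), _ => (.R s o (c + 1), .inr u, true)
  | .R _ (some (_, b)) _, .sym (.inl _), .inr (s', y') =>
      (.L s' (if b then 1 else 0), .inr (y', b), false)
  | .R _ none c, .sym (.inl _), .inr (s', y') =>
      (.L s' (if c = 0 then 1 else 0), .inr (y', decide (c = 0)), false)
  | .R s o c, .rm, _ => (.R s o (c + 1), .inr (T.y0, false), true)
  | p, _, _ => (p, .inr (T.y0, false), false)

theorem exists_mv (T : QM A) (n : ℕ) (p : St T.S T.Y n) (σ : Sym (A ⊕ (T.Y × Bool)))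
    (r : St T.S T.Y n × (A ⊕ (T.Y × Bool)) × Bool) (h : r ∈ del T n p σ) :
    ∃ α, mv T n p σ α = r := by
  rcases p with ⟨s, j⟩ | s | ⟨s, o, c⟩
  · rcases σ with _ | _ | (a | ⟨y, b⟩)
    · exact ⟨.inl true, h.symm⟩
    · exact absurd h (Set.notMem_empty _)
    · exact absurd h (Set.notMem_empty _)
    · cases b
      · exact ⟨.inl false, h.symm⟩
      · rcases h with ⟨-, h⟩ | ⟨-, h | h⟩
        · exact ⟨.inl false, h.symm⟩
        · exact ⟨.inl true, h.symm⟩
        · exact ⟨.inr (s, y), h.symm⟩
  · rcases σ with _ | _ | (a | ⟨y, b⟩)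
    · exact absurd h (Set.notMem_empty _)
    · exact absurd h (Set.notMem_empty _)
    · exact absurd h (Set.notMem_empty _)
    · cases b
      · rcases h with h | h
        · exact ⟨.inl false, h.symm⟩
        · exact ⟨.inr (s, y), h.symm⟩
      · exact absurd h (Set.notMem_empty _)
  · rcases σ with _ | _ | (a | u)
    · rcases o with _ | ⟨y, b⟩ <;> exact absurd h (Set.notMem_empty _)
    · rcases o with _ | ⟨y, b⟩ <;> exact ⟨.inl true, h.symm⟩
    · rcases o with _ | ⟨y, b⟩
      · obtain ⟨s', y', -, h⟩ := h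
        exact ⟨.inr (s', y'), h.symm⟩
      · obtain ⟨-, s', y', -, h⟩ := h
        exact ⟨.inr (s', y'), h.symm⟩
    · rcases o with _ | ⟨y, b⟩ <;> exact ⟨.inl true, h.symm⟩

end Pool.Agent.L0h67.CQ
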