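import Mathlib
import Pool.Agent.L0h67.CQ.Defs

set_option autoImplicit false

namespace Pool.Agent.L0h67.CQ

variable {A : Type}

/-- One step of a queue machine which reads the letter `a`: the control state and the content of
the queue (a list, its head is the front of the queue) change from `c` to `c'`. -/
def QM.Step (T : QM A) (a : A) (c c' : T.S × List T.Y) : Prop :=
  ∃ x r z, c.2 = x :: r ∧ c'.2 = r ++ [z] ∧ T.tr c.1 x a c'.1 z

/-- The computations of a queue machine on the word `w`. -/
def QM.Steps (T : QM A) : List A → T.S × List T.Y → T.S × List T.Y → Prop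
  | [], c, c' => c = c'
  | a :: w, c, c' => ∃ d, T.Step a c d ∧ T.Steps w d c'

/-- The language of a queue machine with a queue of length `k`. -/
def QM.language (T : QM A) (k : ℕ) : Set (List A) :=
  {w | ∃ c, T.Steps w (T.s0, List.replicate k T.y0) c ∧ c.1 ∈ T.acc}

theorem QM.steps_append (T : QM A) (u v : List A) (c c' : T.S × List T.Y) :
    T.Steps (u ++ v) c c' ↔ ∃ d, T.Steps u c d ∧ T.Steps v d c' := by
  induction u generalizing c with
  | nil =>
    constructor
    · intro h
      exact ⟨c, rfl, h⟩
    · rintro ⟨d, h1, h2⟩
      obtain rfl : c = d := h1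
      exact h2
  | cons a u ih =>
    constructor
    · rintro ⟨d, h1, h2⟩
      obtain ⟨e, h3, h4⟩ := (ih d).1 h2
      exact ⟨e, ⟨d, h1, h3⟩, h4⟩
    · rintro ⟨e, ⟨d, h1, h3⟩, h4⟩
      exact ⟨d, h1, (ih d).2 ⟨e, h3, h4⟩⟩

theorem QM.steps_length (T : QM A) (w : List A) (c c' : T.S × List T.Y) (h : T.Steps w c c') :
    c'.2.length = c.2.length := by
  induction w generalizing c with
  | nil =>
    obtain rfl : c = c' := h
    rfl
  | cons a w ih =>
    obtain ⟨d, ⟨x, r, z, h1, h2, -⟩, h3⟩ := h
    rw [ih d h3, h1, h2]
    simp

/-- The stream of all symbols which are in the queue at some time. -/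
theorem steps_iff_stream (T : QM A) (k : ℕ) (hk1 : 1 ≤ k) (w : List A) : ∀ (s0 : T.S) (q : List T.Y)
    (s1 : T.S), q.length = k →
    ((∃ q1, T.Steps w (s0, q) (s1, q1)) ↔ ∃ (s : ℕ → T.S) (F : ℕ → T.Y), s 0 = s0 ∧
      (∀ j, j < k → q[j]? = some (F j)) ∧
      (∀ i a, i < w.length → w[i]? = some a → T.tr (s i) (F i) a (s (i + 1)) (F (i + k))) ∧
      s w.length = s1) := by
  induction w with
  | nil =>
    intro s0 q s1 hq
    constructor
    · rintro ⟨q1, h⟩
      have h' : (s0, q) = (s1, q1) := h
      simp only [Prod.mk.injEq] at h'
      obtain ⟨rfl, rfl⟩ := h'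
      refine ⟨fun _ => s0, fun j => (q[j]?).getD T.y0, rfl, ?_, ?_, rfl⟩
      · intro j hj
        show q[j]? = some ((q[j]?).getD T.y0)
        rw [List.getElem?_eq_getElem (by omega)]
        rfl
      · intro i a hi
        simp at hi
    · rintro ⟨s, F, h1, -, -, h4⟩
      refine ⟨q, ?_⟩
      show (s0, q) = (s1, q)
      rw [← h1, ← h4]
      rfl
  | cons a w ih =>
    intro s0 q s1 hq
    constructor
    · rintro ⟨q1, ⟨s2, q2⟩, ⟨x, r, z, h1, h2, h3⟩, h4⟩
      dsimp only at h1 h2 h3
      subst h1 h2
      have hr : r.length + 1 = k := by simpa using hq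
      obtain ⟨s, F, g1, g2, g3, g4⟩ := (ih s2 (r ++ [z]) s1 (by simpa using hq)).1 ⟨q1, h4⟩
      refine ⟨fun i => match i with | 0 => s0 | i + 1 => s i,
        fun i => match i with | 0 => x | i + 1 => F i, rfl, ?_, ?_, ?_⟩
      · intro j hj
        cases j with
        | zero => rfl
        | succ j =>
          have := g2 j (by omega)
          rw [List.getElem?_append_left (by omega)] at this
          simpa using this
      · intro i b hi hb
        cases i with
        | zero =>
          have hb' : a = b := by simpa using hb
          subst hb'
          have hz : z = F r.length := by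
            have := g2 r.length (by omega)
            rw [List.getElem?_append_right (le_refl _)] at this
            simpa using this
          have hk : (0 + k) = r.length + 1 := by omega
          rw [hk]
          show T.tr s0 x a (s 0) (F r.length)
          rw [g1, ← hz]
          exact h3
        | succ i =>
          have hb' : w[i]? = some b := by simpa using hb
          have := g3 i b (by simpa using hi) hb'
          rw [show i + 1 + k = (i + k) + 1 by omega]
          exact this
      · exact g4
    · rintro ⟨s, F, g1, g2, g3, g4⟩
      cases q with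
      | nil =>
        exfalso
        have hk : k = 0 := by simpa using hq.symm
        omega
      | cons x r =>
        have hr : r.length + 1 = k := by simpa using hq
        have hx : x = F 0 := by
          have := g2 0 hk1
          simpa using this
        have ht := g3 0 a (by simp) (by simp)
        rw [show 0 + k = k from Nat.zero_add k] at ht
        obtain ⟨q1, h5⟩ := (ih (s 1) (r ++ [F k]) s1 (by simpa using hq)).2
          ⟨fun i => s (i + 1), fun i => F (i + 1), rfl, by
            intro j hj
            rcases Nat.lt_or_ge j r.length with h | h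
            · rw [List.getElem?_append_left h]
              have := g2 (j + 1) (by omega)
              simpa using this
            · obtain rfl : j = r.length := by omega
              rw [List.getElem?_append_right (le_refl _)]
              show [F k][r.length - r.length]? = some (F (r.length + 1))
              rw [hr]
              simp, by
            intro i b hi hb
            have := g3 (i + 1) b (by simpa using hi) (by simpa using hb)
            rw [show i + 1 + k = (i + k) + 1 by omega] at this
            exact this, g4⟩
        refine ⟨q1, (s 1, r ++ [F k]), ⟨x, r, F k, rfl, rfl, ?_⟩, h5⟩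
        show T.tr s0 x a (s 1) (F k)
        rw [hx, ← g1]
        exact ht

/-- The two descriptions of the language agree. -/
theorem language_eq_lang (T : QM A) (k : ℕ) (hk : 1 ≤ k) : T.language k = T.lang k := by
  ext w
  constructor
  · rintro ⟨⟨s1, q1⟩, h1, h2⟩
    obtain ⟨s, F, g1, g2, g3, g4⟩ :=
      (steps_iff_stream T k hk w T.s0 _ s1 (by simp)).1 ⟨q1, h1⟩
    refine ⟨s, fun i => F (i + k), ⟨g1, ?_⟩, by rw [g4]; exact h2⟩
    intro i a hi ha
    have hf : T.front k (fun i => F (i + k)) i = F i := by
      unfold QM.front
      by_cases h : i < k
      · rw [if_pos h]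
        have := g2 i h
        rw [List.getElem?_replicate, if_pos h] at this
        exact Option.some.inj this
      · rw [if_neg h]
        show F (i - k + k) = F i
        congr 1
        omega
    rw [hf]
    exact g3 i a hi ha
  · rintro ⟨s, y, ⟨g1, g2⟩, g3⟩
    obtain ⟨q1, h1⟩ := (steps_iff_stream T k hk w T.s0 (List.replicate k T.y0) (s w.length)
      (by simp)).2 ⟨s, T.front k y, g1, by
        intro j hj
        rw [List.getElem?_replicate, if_pos hj]
        unfold QM.front
        rw [if_pos hj], by
        intro i a hi ha
        have := g2 i a hi ha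
        have hf : T.front k y (i + k) = y i := by
          unfold QM.front
          rw [if_neg (by omega)]
          congr 1
          omega
        rw [hf]
        exact this, rfl⟩
    exact ⟨_, h1, g3⟩

end Pool.Agent.L0h67.CQ
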