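import Mathlib
import Pool.Agent.L0h67.CQ.Queue

set_option autoImplicit false

namespace Pool.Agent.L0h67.CQ

/-- The letters of the codes: `none` stops every computation; `some (p, q, e, g)` is one cell of a
block; `e` tells if it is the last cell of the block, and `g` if the block is the last one of the
code. -/
abbrev Letter : Type := Option (Bool × Bool × Bool × Bool)

/-- The control states of the universal queue machine. -/
inductive Ctl : Type
  | start | skip | apply | done
deriving DecidableEq

instance : Fintype Ctl := ⟨{.start, .skip, .apply, .done}, by intro x; cases x <;> simp⟩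

/-- What is done with the current block. -/
def Ctl.mode : Ctl → Ctl → Prop
  | .start, m => m = .skip ∨ m = .apply
  | .skip, m => m = .skip
  | .apply, m => m = .apply
  | .done, m => m = .done

/-- The next control state. -/
def Ctl.next (m : Ctl) : Bool → Bool → Ctl → Prop
  | false, _, s => s = m
  | true, false, s => (m = .skip ∧ (s = .skip ∨ s = .apply)) ∨ (m ≠ .skip ∧ s = .done)
  | true, true, s => m ≠ .skip ∧ s = .start

/-- The transitions of the universal machine. -/
def utr (s : Ctl) (x : Bool) (a : Letter) (s' : Ctl) (z : Bool) : Prop :=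
  ∃ p q e g, a = some (p, q, e, g) ∧ ∃ m : Ctl, s.mode m ∧
    (m = .apply → x = p ∧ z = q) ∧ (m ≠ .apply → z = x) ∧ m.next e g s'

/-- The universal queue machine: it has four control states, two queue symbols and seventeen
letters. -/
def U : QM Letter where
  S := Ctl
  Y := Bool
  finS := inferInstance
  finY := inferInstance
  s0 := .start
  y0 := false
  acc := {.start}
  tr := utr

/-- The computations of the universal machine. -/
def USteps : List Letter → Ctl × List Bool → Ctl × List Bool → Prop
  | [], c, c' => c = c'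
  | a :: w, c, c' => ∃ d : Ctl × List Bool, (∃ (x : Bool) (r : List Bool) (z : Bool),
      c.2 = x :: r ∧ d.2 = r ++ [z] ∧ utr c.1 x a d.1 z) ∧ USteps w d c'

theorem usteps_iff (w : List Letter) : ∀ c c' : Ctl × List Bool, U.Steps w c c' ↔ USteps w c c' := by
  induction w with
  | nil => exact fun c c' => Iff.rfl
  | cons a w ih =>
    intro c c'
    constructor
    · rintro ⟨d, h1, h2⟩
      exact ⟨d, h1, (ih d c').1 h2⟩
    · rintro ⟨d, h1, h2⟩
      exact ⟨d, h1, (ih d c').2 h2⟩

theorem usteps_append (u v : List Letter) (c c' : Ctl × List Bool) :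
    USteps (u ++ v) c c' ↔ ∃ d, USteps u c d ∧ USteps v d c' := by
  refine (usteps_iff _ _ _).symm.trans ((QM.steps_append U u v c c').trans ?_)
  constructor
  · rintro ⟨d, h1, h2⟩
    exact ⟨d, (usteps_iff _ _ _).1 h1, (usteps_iff _ _ _).1 h2⟩
  · rintro ⟨d, h1, h2⟩
    exact ⟨d, (usteps_iff _ _ _).2 h1, (usteps_iff _ _ _).2 h2⟩

theorem usteps_length (w : List Letter) (c c' : Ctl × List Bool) (h : USteps w c c') :
    c'.2.length = c.2.length :=
  QM.steps_length U w c c' ((usteps_iff _ _ _).2 h)

theorem mode_ne {s m : Ctl} (h : s.mode m) : m ≠ .start := by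
  cases s <;> cases m <;> simp_all [Ctl.mode]

theorem mode_mode {s m m' : Ctl} (h : s.mode m) : m.mode m' ↔ m' = m := by
  cases s <;> cases m <;> simp_all [Ctl.mode]

/-- A block. -/
def blk : List (Bool × Bool) → Bool → List Letter
  | [], _ => []
  | [(p, q)], g => [some (p, q, true, g)]
  | (p, q) :: r :: l, g => some (p, q, false, false) :: blk (r :: l) g

theorem blk_steps (l : List (Bool × Bool)) (hl : l ≠ []) (g : Bool) : ∀ (s : Ctl)
    (r d : List Bool) (c' : Ctl × List Bool), r.length = l.length →
    (USteps (blk l g) (s, r ++ d) c' ↔ ∃ m : Ctl, s.mode m ∧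
      (m = .apply → r = l.map Prod.fst ∧ c'.2 = d ++ l.map Prod.snd) ∧
      (m ≠ .apply → c'.2 = d ++ r) ∧ m.next true g c'.1) := by
  induction l with
  | nil => exact absurd rfl hl
  | cons pq l ih =>
    obtain ⟨p, q⟩ := pq
    intro s r d c' hr
    cases l with
    | nil =>
      obtain ⟨x, rfl⟩ : ∃ x, r = [x] := List.length_eq_one_iff.1 (by simpa using hr)
      constructor
      · rintro ⟨c1, ⟨x', r', z, h1, h2, p', q', e', g', h3, m, h4, h5, h6, h7⟩, h8⟩
        obtain rfl : c1 = c' := h8
        simp only [Option.some.injEq, Prod.mk.injEq] at h3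
        obtain ⟨rfl, rfl, rfl, rfl⟩ := h3
        have h1' : x :: d = x' :: r' := h1
        simp only [List.cons.injEq] at h1'
        obtain ⟨rfl, rfl⟩ := h1'
        refine ⟨m, h4, ?_, ?_, h7⟩
        · intro hm
          obtain ⟨rfl, rfl⟩ := h5 hm
          exact ⟨rfl, h2⟩
        · intro hm
          obtain rfl := h6 hm
          exact h2
      · rintro ⟨m, h1, h2, h3, h4⟩
        refine ⟨c', ?_, rfl⟩
        by_cases hm : m = .apply
        · obtain ⟨h5, h6⟩ := h2 hm
          have h5' : x = p := by simpa using h5
          exact ⟨x, d, q, rfl, h6, p, q, true, g, rfl, m, h1, fun _ => ⟨h5', rfl⟩,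
            fun h => absurd hm h, h4⟩
        · exact ⟨x, d, x, rfl, h3 hm, p, q, true, g, rfl, m, h1, fun h => absurd h hm,
            fun _ => rfl, h4⟩
    | cons pq' l =>
      have ih' := ih (by simp)
      cases r with
      | nil => simp at hr
      | cons x r =>
        have hr' : r.length = (pq' :: l).length := by simpa using hr
        constructor
        · rintro ⟨⟨s1, q1⟩, ⟨x', r', z, h1, h2, p', q', e', g', h3, m, h4, h5, h6, h7⟩, h8⟩
          simp only [Option.some.injEq, Prod.mk.injEq] at h3
          obtain ⟨rfl, rfl, rfl, rfl⟩ := h3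
          have h1' : x :: (r ++ d) = x' :: r' := h1
          simp only [List.cons.injEq] at h1'
          obtain ⟨rfl, rfl⟩ := h1'
          have h2' : q1 = r ++ (d ++ [z]) := by rw [← List.append_assoc]; exact h2
          subst h2'
          have h7' : s1 = m := h7
          subst h7'
          obtain ⟨m', g1, g2, g3, g4⟩ := (ih' s1 r (d ++ [z]) c' hr').1 h8
          have hm' := (mode_mode h4).1 g1
          subst hm'
          refine ⟨m', h4, ?_, ?_, g4⟩
          · intro hm
            obtain ⟨e1, e2⟩ := g2 hm
            obtain ⟨e3, e4⟩ := h5 hm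
            have e3' : x = p := e3
            have e4' : z = q := e4
            refine ⟨by rw [e1, e3']; rfl, ?_⟩
            rw [e2, e4', List.append_assoc]
            rfl
          · intro hm
            rw [g3 hm, show z = x from h6 hm, List.append_assoc]
            rfl
        · rintro ⟨m, h1, h2, h3, h4⟩
          by_cases hm : m = .apply
          · obtain ⟨h5, h6⟩ := h2 hm
            simp only [List.map_cons, List.cons.injEq] at h5
            refine ⟨(m, r ++ (d ++ [q])), ⟨x, r ++ d, q, rfl, (List.append_assoc _ _ _).symm, p, q, false, false, rfl, m, h1, fun _ => ⟨h5.1, rfl⟩,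
              fun h => absurd hm h, rfl⟩, ?_⟩
            refine (ih' m r (d ++ [q]) c' hr').2 ⟨m, (mode_mode h1).2 rfl, ?_,
              fun h => absurd hm h, h4⟩
            intro _
            refine ⟨by simpa using h5.2, ?_⟩
            rw [h6]
            simp
          · refine ⟨(m, r ++ (d ++ [x])), ⟨x, r ++ d, x, rfl, (List.append_assoc _ _ _).symm, p, q, false, false, rfl, m, h1, fun h => absurd h hm,
              fun _ => rfl, rfl⟩, ?_⟩
            refine (ih' m r (d ++ [x]) c' hr').2 ⟨m, (mode_mode h1).2 rfl,
              fun h => absurd h hm, ?_, h4⟩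
            intro _
            rw [h3 hm]
            simp

/-- The code of a list of transitions. -/
def code : List (List (Bool × Bool)) → List Letter
  | [] => [none]
  | [l] => blk l true
  | l :: l' :: L => blk l false ++ code (l' :: L)

/-- The computations on a code. -/
def Res (L : List (List (Bool × Bool))) (q : List Bool) (c' : Ctl × List Bool) : Ctl → Prop
  | .done => L ≠ [] ∧ c'.1 = .start ∧ c'.2 = q
  | .apply => c'.1 = .start ∧ ∃ l L', L = l :: L' ∧ q = l.map Prod.fst ∧ c'.2 = l.map Prod.snd
  | .skip => c'.1 = .start ∧ ∃ l L', L = l :: L' ∧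
      ∃ l' ∈ L', q = l'.map Prod.fst ∧ c'.2 = l'.map Prod.snd
  | .start => c'.1 = .start ∧ ∃ l ∈ L, q = l.map Prod.fst ∧ c'.2 = l.map Prod.snd

theorem code_steps (k : ℕ) (hk : 1 ≤ k) (L : List (List (Bool × Bool))) :
    (∀ l ∈ L, l.length = k) → ∀ (s : Ctl) (q : List Bool) (c' : Ctl × List Bool),
    q.length = k → (USteps (code L) (s, q) c' ↔ Res L q c' s) := by
  induction L with
  | nil =>
    intro _ s q c' _
    constructor
    · rintro ⟨d, ⟨x, r, z, -, -, p, q, e, g, h, -⟩, -⟩
      simp at h
    · intro h
      cases s with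
      | start => obtain ⟨-, l, hl, -⟩ := h; simp at hl
      | skip => obtain ⟨-, l, L', hl, -⟩ := h; simp at hl
      | apply => obtain ⟨-, l, L', hl, -⟩ := h; simp at hl
      | done => exact absurd rfl h.1
  | cons l L ih =>
    intro hL s q c' hq
    have hl : l.length = k := hL l (by simp)
    have hl0 : l ≠ [] := by
      intro h
      rw [h] at hl
      simp at hl
      omega
    have hql : q.length = l.length := by omega
    cases L with
    | nil =>
      have hb := blk_steps l hl0 true s q [] c' hql
      rw [List.append_nil] at hb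
      show USteps (blk l true) (s, q) c' ↔ _
      rw [hb]
      cases s with
      | start =>
        constructor
        · rintro ⟨m, h1, h2, h3, h4, h5⟩
          have hm : m = .apply := by
            rcases h1 with h1 | h1
            · exact absurd h1 h4
            · exact h1
          exact ⟨h5, l, by simp, (h2 hm).1, by simpa using (h2 hm).2⟩
        · rintro ⟨h1, l', h2, h3, h4⟩
          obtain rfl : l' = l := by simpa using h2
          exact ⟨.apply, Or.inr rfl, fun _ => ⟨h3, by simpa using h4⟩, fun h => absurd rfl h,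
            by decide, h1⟩
      | skip =>
        constructor
        · rintro ⟨m, h1, h2, h3, h4, h5⟩
          exact absurd h1 h4
        · rintro ⟨h1, l', L', h2, l'', h3, -⟩
          simp only [List.cons.injEq] at h2
          obtain ⟨-, rfl⟩ := h2
          simp at h3
      | apply =>
        constructor
        · rintro ⟨m, h1, h2, h3, h4, h5⟩
          exact ⟨h5, l, [], rfl, (h2 h1).1, by simpa using (h2 h1).2⟩
        · rintro ⟨h1, l', L', h2, h3, h4⟩
          simp only [List.cons.injEq] at h2
          obtain ⟨rfl, -⟩ := h2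
          exact ⟨.apply, rfl, fun _ => ⟨h3, by simpa using h4⟩, fun h => absurd rfl h,
            by decide, h1⟩
      | done =>
        constructor
        · rintro ⟨m, h1, h2, h3, h4, h5⟩
          have hm : m = .done := h1
          refine ⟨by simp, h5, by simpa using h3 (by rw [hm]; decide)⟩
        · rintro ⟨-, h1, h2⟩
          exact ⟨.done, rfl, fun h => by simp at h, fun _ => by simpa using h2, by decide, h1⟩
    | cons l' L =>
      have ih' := ih (fun l'' h => hL l'' (by simp [List.mem_cons.1 h]))
      have hb := fun d => blk_steps l hl0 false s q [] d hql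
      simp only [List.append_nil] at hb
      show USteps (blk l false ++ code (l' :: L)) (s, q) c' ↔ _
      rw [usteps_append]
      have key : (∃ d, USteps (blk l false) (s, q) d ∧ USteps (code (l' :: L)) d c') ↔
          ∃ (m s1 : Ctl), s.mode m ∧ m.next true false s1 ∧
            ((m = .apply ∧ q = l.map Prod.fst ∧ Res (l' :: L) (l.map Prod.snd) c' s1) ∨
              (m ≠ .apply ∧ Res (l' :: L) q c' s1)) := by
        constructor
        · rintro ⟨⟨s1, q1⟩, h1, h2⟩
          have hq1 : q1.length = k := by rw [usteps_length _ _ _ h1]; exact hq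
          obtain ⟨m, h3, h4, h5, h6⟩ := (hb _).1 h1
          rw [ih' s1 q1 c' hq1] at h2
          refine ⟨m, s1, h3, h6, ?_⟩
          by_cases hm : m = .apply
          · left
            obtain ⟨h7, h8⟩ := h4 hm
            have h8' : q1 = l.map Prod.snd := by simpa using h8
            rw [h8'] at h2
            exact ⟨hm, h7, h2⟩
          · right
            have h8' : q1 = q := by simpa using h5 hm
            rw [h8'] at h2
            exact ⟨hm, h2⟩
        · rintro ⟨m, s1, h1, h2, ⟨h3, h4, h5⟩ | ⟨h3, h4⟩⟩
          · refine ⟨(s1, l.map Prod.snd), (hb _).2 ⟨m, h1, fun _ => ⟨h4, by simp⟩,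
              fun h => absurd h3 h, h2⟩, ?_⟩
            rw [ih' s1 _ c' (by simpa using hl)]
            exact h5
          · refine ⟨(s1, q), (hb _).2 ⟨m, h1, fun h => absurd h h3, fun _ => by simp, h2⟩, ?_⟩
            rw [ih' s1 _ c' hq]
            exact h4
      rw [key]
      have done_res : ∀ q', Res (l' :: L) q' c' .done ↔ c'.1 = .start ∧ c'.2 = q' := by
        intro q'
        exact ⟨fun h => h.2, fun h => ⟨by simp, h⟩⟩
      have apply_case : (q = l.map Prod.fst ∧ Res (l' :: L) (l.map Prod.snd) c' .done) ↔
          (c'.1 = .start ∧ q = l.map Prod.fst ∧ c'.2 = l.map Prod.snd) := by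
        rw [done_res]
        tauto
      have skip_case : (Res (l' :: L) q c' .skip ∨ Res (l' :: L) q c' .apply) ↔
          (c'.1 = .start ∧ ∃ l'' ∈ l' :: L, q = l''.map Prod.fst ∧ c'.2 = l''.map Prod.snd) := by
        constructor
        · rintro (⟨h1, l1, L1, h2, l2, h3, h4⟩ | ⟨h1, l1, L1, h2, h3⟩)
          · simp only [List.cons.injEq] at h2
            obtain ⟨rfl, rfl⟩ := h2
            exact ⟨h1, l2, by simp [h3], h4⟩
          · simp only [List.cons.injEq] at h2
            obtain ⟨rfl, rfl⟩ := h2
            exact ⟨h1, _, by simp, h3⟩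
        · rintro ⟨h1, l2, h2, h3⟩
          rcases List.mem_cons.1 h2 with rfl | h2
          · exact Or.inr ⟨h1, _, _, rfl, h3⟩
          · exact Or.inl ⟨h1, _, _, rfl, l2, h2, h3⟩
      have all_apply : (∃ s1 : Ctl, Ctl.next .apply true false s1 ∧ q = l.map Prod.fst ∧
          Res (l' :: L) (l.map Prod.snd) c' s1) ↔
          (c'.1 = .start ∧ q = l.map Prod.fst ∧ c'.2 = l.map Prod.snd) := by
        rw [← apply_case]
        constructor
        · rintro ⟨s1, h1 | h1, h2, h3⟩
          · exact absurd h1.1 (by decide)
          · obtain rfl := h1.2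
            exact ⟨h2, h3⟩
        · rintro ⟨h2, h3⟩
          exact ⟨.done, Or.inr ⟨by decide, rfl⟩, h2, h3⟩
      have all_skip : (∃ s1 : Ctl, Ctl.next .skip true false s1 ∧ Res (l' :: L) q c' s1) ↔
          (c'.1 = .start ∧ ∃ l'' ∈ l' :: L, q = l''.map Prod.fst ∧ c'.2 = l''.map Prod.snd) := by
        rw [← skip_case]
        constructor
        · rintro ⟨s1, ⟨-, rfl | rfl⟩ | h1, h2⟩
          · exact Or.inl h2
          · exact Or.inr h2
          · exact absurd rfl h1.1
        · rintro (h | h)
          · exact ⟨.skip, Or.inl ⟨rfl, Or.inl rfl⟩, h⟩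
          · exact ⟨.apply, Or.inl ⟨rfl, Or.inr rfl⟩, h⟩
      cases s with
      | start =>
        constructor
        · rintro ⟨m, s1, h1, h2, ⟨rfl, h3, h4⟩ | ⟨h3, h4⟩⟩
          · obtain ⟨h5, h6, h7⟩ := all_apply.1 ⟨s1, h2, h3, h4⟩
            exact ⟨h5, l, by simp, h6, h7⟩
          · have hm : m = .skip := by
              rcases h1 with h1 | h1
              · exact h1
              · exact absurd h1 h3
            subst hm
            obtain ⟨h5, l2, h6, h7⟩ := all_skip.1 ⟨s1, h2, h4⟩
            exact ⟨h5, l2, List.mem_cons_of_mem _ h6, h7⟩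
        · rintro ⟨h1, l2, h2, h3⟩
          rcases List.mem_cons.1 h2 with rfl | h2
          · obtain ⟨s1, h4, h5, h6⟩ := all_apply.2 ⟨h1, h3⟩
            exact ⟨.apply, s1, Or.inr rfl, h4, Or.inl ⟨rfl, h5, h6⟩⟩
          · obtain ⟨s1, h4, h5⟩ := all_skip.2 ⟨h1, l2, h2, h3⟩
            exact ⟨.skip, s1, Or.inl rfl, h4, Or.inr ⟨by decide, h5⟩⟩
      | skip =>
        constructor
        · rintro ⟨m, s1, h1, h2, ⟨rfl, h3, h4⟩ | ⟨h3, h4⟩⟩
          · exact absurd h1 (by simp [Ctl.mode])
          · obtain rfl : m = .skip := h1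
            obtain ⟨h5, l2, h6, h7⟩ := all_skip.1 ⟨s1, h2, h4⟩
            exact ⟨h5, _, _, rfl, l2, h6, h7⟩
        · rintro ⟨h1, l1, L1, h2, l2, h3, h4⟩
          simp only [List.cons.injEq] at h2
          obtain ⟨rfl, rfl⟩ := h2
          obtain ⟨s1, h4, h5⟩ := all_skip.2 ⟨h1, l2, h3, h4⟩
          exact ⟨.skip, s1, rfl, h4, Or.inr ⟨by decide, h5⟩⟩
      | apply =>
        constructor
        · rintro ⟨m, s1, h1, h2, ⟨rfl, h3, h4⟩ | ⟨h3, h4⟩⟩
          · obtain ⟨h5, h6, h7⟩ := all_apply.1 ⟨s1, h2, h3, h4⟩
            exact ⟨h5, _, _, rfl, h6, h7⟩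
          · exact absurd h1 h3
        · rintro ⟨h1, l1, L1, h2, h3⟩
          simp only [List.cons.injEq] at h2
          obtain ⟨rfl, rfl⟩ := h2
          obtain ⟨s1, h4, h5, h6⟩ := all_apply.2 ⟨h1, h3⟩
          exact ⟨.apply, s1, rfl, h4, Or.inl ⟨rfl, h5, h6⟩⟩
      | done =>
        constructor
        · rintro ⟨m, s1, h1, h2, ⟨rfl, h3, h4⟩ | ⟨h3, h4⟩⟩
          · exact absurd h1 (by simp [Ctl.mode])
          · obtain rfl : m = .done := h1
            rcases h2 with h2 | h2
            · exact absurd h2.1 (by decide)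
            · obtain rfl := h2.2
              exact ⟨by simp, (done_res q).1 h4⟩
        · rintro ⟨-, h1, h2⟩
          exact ⟨.done, .done, rfl, Or.inr ⟨by decide, rfl⟩, Or.inr ⟨by decide,
            (done_res q).2 ⟨h1, h2⟩⟩⟩

end Pool.Agent.L0h67.CQ
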