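import Mathlib
import Pool.Agent.L0h67.CQ.Universal

set_option autoImplicit false

namespace Pool.Agent.L0h67.CQ

/-- Every relation between words of length `k` has a code. -/
theorem exists_code (k : ℕ) (hk : 1 ≤ k) (R : List Bool → List Bool → Prop) :
    ∃ u : List Letter, ∀ (q : List Bool) (c' : Ctl × List Bool), q.length = k →
      (USteps u (.start, q) c' ↔ c'.1 = .start ∧ c'.2.length = k ∧ R q c'.2) := by
  classical
  have hfin : {l : List (Bool × Bool) | l.length = k ∧ R (l.map Prod.fst) (l.map Prod.snd)}.Finite :=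
    (List.finite_length_eq (Bool × Bool) k).subset fun l hl => hl.1
  refine ⟨code hfin.toFinset.toList, fun q c' hq => ?_⟩
  have hL : ∀ l ∈ hfin.toFinset.toList, l.length = k := by
    intro l hl
    rw [Finset.mem_toList, Set.Finite.mem_toFinset] at hl
    exact hl.1
  rw [code_steps k hk _ hL .start q c' hq]
  constructor
  · rintro ⟨h1, l, h2, h3, h4⟩
    rw [Finset.mem_toList, Set.Finite.mem_toFinset] at h2
    refine ⟨h1, ?_, ?_⟩
    · rw [h4, List.length_map]
      exact h2.1
    · rw [h3, h4]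
      exact h2.2
  · rintro ⟨h1, h2, h3⟩
    have e1 : (q.zip c'.2).map Prod.fst = q := List.map_fst_zip (by omega)
    have e2 : (q.zip c'.2).map Prod.snd = c'.2 := List.map_snd_zip (by omega)
    refine ⟨h1, q.zip c'.2, ?_, e1.symm, e2.symm⟩
    rw [Finset.mem_toList, Set.Finite.mem_toFinset]
    refine ⟨by simp [hq, h2], ?_⟩
    rw [e1, e2]
    exact h3

/-- Every one-way nondeterministic automaton with at most `2 ^ k` states is coded by the universal
machine with a queue of length `k`. -/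
theorem universal (k : ℕ) (hk : 1 ≤ k) (B σ : Type) [Finite σ] (N : NFA B σ)
    (hN : Nat.card σ ≤ 2 ^ k) : ∃ (u v : List Letter) (φ : B → List Letter), ∀ w : List B,
      (w ∈ N.accepts ↔ u ++ w.flatMap φ ++ v ∈ U.language k) := by
  classical
  have : Fintype σ := Fintype.ofFinite σ
  obtain ⟨e⟩ : Nonempty (σ ↪ (Fin k → Bool)) := by
    apply Function.Embedding.nonempty_of_card_le
    rw [← Nat.card_eq_fintype_card]
    simpa using hN
  set c : σ → List Bool := fun x => List.ofFn (e x) with hc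
  have hlen : ∀ x, (c x).length = k := fun x => by simp [hc]
  have hinj : ∀ x y, c x = c y → x = y := fun x y h => e.injective (List.ofFn_injective h)
  obtain ⟨u, hu⟩ := exists_code k hk (fun _ q' => ∃ x ∈ N.start, q' = c x)
  obtain ⟨v, hv⟩ := exists_code k hk (fun q _ => ∃ x ∈ N.accept, q = c x)
  have hφ : ∀ b : B, ∃ a : List Letter, ∀ (q : List Bool) (c' : Ctl × List Bool), q.length = k →
      (USteps a (.start, q) c' ↔ c'.1 = .start ∧ c'.2.length = k ∧
        ∃ x y, q = c x ∧ c'.2 = c y ∧ y ∈ N.step x b) := fun b =>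
    exists_code k hk (fun q q' => ∃ x y, q = c x ∧ q' = c y ∧ y ∈ N.step x b)
  choose φ hφ using hφ
  refine ⟨u, v, φ, fun w => ?_⟩
  have hw : ∀ (w : List B) (S : Set σ) (c' : Ctl × List Bool),
      (∃ x ∈ S, USteps (w.flatMap φ) (.start, c x) c') ↔
        c'.1 = .start ∧ ∃ y ∈ N.evalFrom S w, c'.2 = c y := by
    intro w
    induction w with
    | nil =>
      intro S c'
      constructor
      · rintro ⟨x, hx, h⟩
        have h' : (Ctl.start, c x) = c' := h
        rw [← h']
        exact ⟨rfl, x, hx, rfl⟩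
      · rintro ⟨h1, y, hy, h2⟩
        refine ⟨y, hy, ?_⟩
        show (Ctl.start, c y) = c'
        rw [← h1, ← h2]
    | cons b w ih =>
      intro S c'
      have h1 : N.evalFrom S (b :: w) = N.evalFrom (N.stepSet S b) w := rfl
      rw [h1, ← ih]
      constructor
      · rintro ⟨x, hx, h⟩
        rw [List.flatMap_cons, usteps_append] at h
        obtain ⟨⟨s1, q1⟩, h2, h3⟩ := h
        obtain ⟨rfl, -, x', y, h5, h6, h7⟩ := (hφ b (c x) (s1, q1) (hlen x)).1 h2
        obtain rfl := hinj _ _ h5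
        dsimp only at h6
        subst h6
        exact ⟨y, Set.mem_biUnion hx h7, h3⟩
      · rintro ⟨y, hy, h⟩
        obtain ⟨x, hx, hxy⟩ := Set.mem_iUnion₂.1 hy
        refine ⟨x, hx, ?_⟩
        rw [List.flatMap_cons, usteps_append]
        exact ⟨(.start, c y), (hφ b (c x) _ (hlen x)).2 ⟨rfl, hlen y, x, y, rfl, rfl, hxy⟩, h⟩
  have h0 : (List.replicate k false).length = k := List.length_replicate
  have hlang : u ++ w.flatMap φ ++ v ∈ U.language k ↔
      ∃ c' : Ctl × List Bool, USteps (u ++ w.flatMap φ ++ v) (.start, List.replicate k false) c' ∧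
        c'.1 = .start := by
    constructor
    · rintro ⟨c', h1, h2⟩
      exact ⟨c', (usteps_iff _ _ _).1 h1, h2⟩
    · rintro ⟨c', h1, h2⟩
      exact ⟨c', (usteps_iff _ _ _).2 h1, h2⟩
  rw [hlang]
  constructor
  · rintro ⟨y, hy, h⟩
    obtain ⟨x, hx, h1⟩ := (hw w N.start (.start, c y)).2 ⟨rfl, y, h, rfl⟩
    refine ⟨(.start, c y), ?_, rfl⟩
    rw [usteps_append]
    exact ⟨(.start, c y), (usteps_append _ _ _ _).2 ⟨(.start, c x),
      (hu _ _ h0).2 ⟨rfl, hlen x, x, hx, rfl⟩, h1⟩,
      (hv (c y) (.start, c y) (hlen y)).2 ⟨rfl, hlen y, y, hy, rfl⟩⟩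
  · rintro ⟨c', h1, -⟩
    rw [usteps_append] at h1
    obtain ⟨⟨s1, q1⟩, h2, h3⟩ := h1
    obtain ⟨⟨s2, q2⟩, h4, h5⟩ := (usteps_append _ _ _ _).1 h2
    obtain ⟨rfl, -, x, hx, h6⟩ := (hu _ _ h0).1 h4
    dsimp only at h6
    subst h6
    obtain ⟨h7, y, hy, h8⟩ := (hw w N.start (s1, q1)).1 ⟨x, hx, h5⟩
    dsimp only at h7 h8
    subst h7 h8
    obtain ⟨-, -, z, hz, h9⟩ := (hv (c y) c' (hlen y)).1 h3
    obtain rfl := hinj _ _ h9
    exact ⟨y, hz, hy⟩

end Pool.Agent.L0h67.CQ
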