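import Mathlib
import Pool.Agent.L0h67.CQ.Main
import Pool.Agent.H630R2.LA.Upper

set_option autoImplicit false

namespace Pool.Agent.L0h67.CQ

open Pool.Agent.H630R2.LA

variable {A : Type}

theorem card_Q (T : QM A) (n : ℕ) [NeZero n] [Finite A] :
    Nat.card (mach T n).Q ≤ 4 * (Nat.card T.S * Nat.card T.Y) * (n + 1) := by
  have := T.finS
  have := T.finY
  have hY : 1 ≤ Nat.card T.Y := Nat.card_pos_iff.2 ⟨⟨T.y0⟩, inferInstance⟩
  have h1 : Nat.card (mach T n).Q ≤
      Nat.card ((T.S × ZMod n) ⊕ T.S ⊕ (T.S × Option (T.Y × Bool) × ZMod n)) :=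
    Nat.card_le_card_of_injective _ St.code_inj
  refine h1.trans ?_
  rw [Nat.card_sum, Nat.card_sum, Nat.card_prod, Nat.card_prod, Nat.card_prod, Nat.card_zmod,
    Finite.card_option, Nat.card_prod, Nat.card_eq_fintype_card (α := Bool), Fintype.card_bool]
  generalize Nat.card T.S = s
  generalize hy : Nat.card T.Y = y at hY
  have h2 : s * n + (s + s * ((y * 2 + 1) * n)) = s * (1 + (2 * y + 2) * n) := by ring
  rw [h2]
  have h3 : 1 + (2 * y + 2) * n ≤ 4 * y * (n + 1) := by nlinarith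
  calc s * (1 + (2 * y + 2) * n) ≤ s * (4 * y * (n + 1)) := Nat.mul_le_mul_left _ h3
    _ = 4 * (s * y) * (n + 1) := by ring

theorem card_W (T : QM A) (n : ℕ) [NeZero n] [Finite A] :
    Nat.card (mach T n).W = Nat.card A + 2 * Nat.card T.Y := by
  have := T.finY
  show Nat.card (A ⊕ (T.Y × Bool)) = _
  rw [Nat.card_sum, Nat.card_prod, Nat.card_eq_fintype_card (α := Bool), Fintype.card_bool]
  ring

theorem numTrans_mach (T : QM A) (n : ℕ) [NeZero n] [Finite A] :
    (mach T n).numTrans ≤ Nat.card (mach T n).Q * (Nat.card (mach T n).W + 2) *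
      (2 + Nat.card T.S * Nat.card T.Y) := by
  have := T.finS
  have := T.finY
  have := (mach T n).finQ
  have := (mach T n).finW
  have hSym : Finite (Sym (mach T n).W) := by
    apply Nat.finite_of_card_ne_zero
    rw [card_Sym]
    omega
  set f : (mach T n).Q × Sym (mach T n).W × (Bool ⊕ (T.S × T.Y)) →
      (mach T n).Q × Sym (mach T n).W × (mach T n).Q × (mach T n).W × Bool :=
    fun x => (x.1, x.2.1, mv T n x.1 x.2.1 x.2.2) with hf
  have h1 : {t : (mach T n).Q × Sym (mach T n).W × (mach T n).Q × (mach T n).W × Bool |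
      t.2.2 ∈ (mach T n).δ t.1 t.2.1} ⊆ f '' Set.univ := by
    rintro ⟨p, σ, r⟩ hr
    obtain ⟨α, hα⟩ := exists_mv T n p σ r hr
    refine ⟨(p, σ, α), Set.mem_univ _, ?_⟩
    rw [hf]
    dsimp only
    rw [hα]
  unfold LimAut.numTrans
  refine (Set.ncard_le_ncard h1 (Set.toFinite _)).trans ?_
  refine (Set.ncard_image_le (Set.toFinite _)).trans ?_
  rw [Set.ncard_univ, Nat.card_prod, Nat.card_prod, card_Sym, Nat.card_sum, Nat.card_prod,
    Nat.card_eq_fintype_card (α := Bool), Fintype.card_bool]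
  exact le_of_eq (by ring)

theorem size_mach (T : QM A) (n : ℕ) [NeZero n] [Finite A] :
    (mach T n).size ≤
      253 * (Nat.card T.S * Nat.card T.Y) ^ 2 * (Nat.card A + Nat.card T.Y) * (n + 1) := by
  have := T.finS
  have := T.finY
  have := (mach T n).finQ
  have hY : 1 ≤ Nat.card T.Y := Nat.card_pos_iff.2 ⟨⟨T.y0⟩, inferInstance⟩
  have hS : 1 ≤ Nat.card T.S := Nat.card_pos_iff.2 ⟨⟨T.s0⟩, inferInstance⟩
  have hQ := card_Q T n
  have hW := card_W T n
  have hT := numTrans_mach T n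
  have hF : (mach T n).F.ncard ≤ Nat.card (mach T n).Q := by
    rw [← Set.ncard_univ]
    exact Set.ncard_le_ncard (Set.subset_univ _) (Set.toFinite _)
  unfold LimAut.size
  rw [hW] at hT ⊢
  have hP : 1 ≤ Nat.card T.S * Nat.card T.Y := Nat.one_le_iff_ne_zero.2 (by positivity)
  generalize Nat.card T.S * Nat.card T.Y = P at *
  generalize Nat.card T.Y = y at *
  generalize Nat.card A = a at *
  generalize (mach T n).numTrans = r at *
  generalize Nat.card (mach T n).Q = q at *
  generalize (mach T n).F.ncard = z at *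
  have h1 : q * (a + 2 * y + 2) * (2 + P) ≤ (4 * P * (n + 1)) * (4 * (a + y)) * (3 * P) :=
    Nat.mul_le_mul (Nat.mul_le_mul hQ (by omega)) (by omega)
  have h2 : (4 * P * (n + 1)) * (4 * (a + y)) * (3 * P) = 48 * (P ^ 2 * (a + y) * (n + 1)) := by
    ring
  have h3 : P * (n + 1) ≤ P ^ 2 * (a + y) * (n + 1) := by
    apply Nat.mul_le_mul_right
    calc P = P * 1 * 1 := by ring
      _ ≤ P * P * (a + y) := Nat.mul_le_mul (Nat.mul_le_mul_left _ hP) (by omega)
      _ = P ^ 2 * (a + y) := by ring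
  have h4 : a + y ≤ P ^ 2 * (a + y) * (n + 1) := by
    calc a + y = 1 * (a + y) * 1 := by ring
      _ ≤ P ^ 2 * (a + y) * (n + 1) :=
        Nat.mul_le_mul (Nat.mul_le_mul_right _ (Nat.one_le_pow _ _ hP)) (by omega)
  have h5 : 253 * P ^ 2 * (a + y) * (n + 1) = 253 * (P ^ 2 * (a + y) * (n + 1)) := by ring
  have h6 : 4 * P * (n + 1) = 4 * (P * (n + 1)) := by ring
  rw [h5]
  rw [h2] at h1
  rw [h6] at hQ
  omega

end Pool.Agent.L0h67.CQ
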